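import Pool.Agent.U762.RP.Stm

/-! Project RP (helper762), package WC: worst case bounds of the killed annealed chain. -/

set_option autoImplicit false

namespace Pool.Agent.U97.RP

open Finset Pool.Agent.U762.RP

theorem fac_pos {d : ℕ} {m r : ℤ → ℤ} (h : Rel d m r) {η : ℝ} (hη : 0 < η) {j : ℕ}
    (hj : j ∈ range d) : 0 < fac d m η j := by
  have hd : (0 : ℝ) < d := by
    have := h.two_le
    exact_mod_cast (by omega : 0 < d)
  have hj' := mem_range.1 hj
  have h1 : 0 < m (j : ℤ) := h.pos j (by omega) (by exact_mod_cast hj')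
  have h2 : (0 : ℝ) < m (j : ℤ) := by exact_mod_cast h1
  unfold fac
  positivity

theorem T_mul {d : ℕ} {m r : ℤ → ℤ} (h : Rel d m r) (x : ℤ) :
    T d m r x * d = m (x % d) * x - r (x % d) := by
  have hd : (0 : ℤ) < d := by
    have := h.two_le
    exact_mod_cast (by omega : 0 < d)
  unfold T
  apply Int.ediv_mul_cancel
  have h1 := h.dvd (x % d) (Int.emod_nonneg _ hd.ne') (Int.emod_lt_of_pos _ hd)
  have h2 : (d : ℤ) ∣ x - x % d := Int.dvd_self_sub_emod
  have h3 : m (x % d) * x - r (x % d) =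
      m (x % d) * (x - x % d) + (m (x % d) * (x % d) - r (x % d)) := by ring
  rw [h3]
  exact dvd_add (Dvd.dvd.mul_left h2 _) h1

theorem T_bound {d : ℕ} {m r : ℤ → ℤ} (h : Rel d m r) {η M : ℝ} (hη : 0 < η) {B : ℕ}
    (hM : (∑ j ∈ range d, |(r (j : ℤ) : ℝ)|) + d * B ≤ M * η) (x : ℤ) (hx : M ≤ |(x : ℝ)|)
    (u : ℤ) (hu : |u| ≤ (B : ℤ)) :
    |((T d m r x + u : ℤ) : ℝ)| ≤ fac d m η (x % d).toNat * |(x : ℝ)| := by
  have hd0 : (0 : ℤ) < d := by
    have := h.two_le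
    exact_mod_cast (by omega : 0 < d)
  have hd : (0 : ℝ) < d := by exact_mod_cast hd0
  have hj0 : 0 ≤ x % d := Int.emod_nonneg _ hd0.ne'
  have hj1 : x % d < d := Int.emod_lt_of_pos _ hd0
  have hjn : (((x % d).toNat : ℕ) : ℤ) = x % d := Int.toNat_of_nonneg hj0
  have hjr : (x % d).toNat ∈ range d := by
    rw [mem_range]
    have : (((x % d).toNat : ℕ) : ℤ) < d := by rw [hjn]; exact hj1
    exact_mod_cast this
  have hm : 1 ≤ m (x % d) := h.pos _ hj0 hj1
  have hmR : (1 : ℝ) ≤ m (x % d) := by exact_mod_cast hm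
  have hTx : ((T d m r x : ℤ) : ℝ) * d = m (x % d) * x - r (x % d) := by
    exact_mod_cast T_mul h x
  have hr : |(r (x % d) : ℝ)| ≤ ∑ j ∈ range d, |(r (j : ℤ) : ℝ)| := by
    have := single_le_sum (f := fun j : ℕ => |(r (j : ℤ) : ℝ)|) (fun i _ => abs_nonneg _) hjr
    rw [hjn] at this
    exact this
  have huR : |(u : ℝ)| ≤ B := by exact_mod_cast hu
  refine le_of_mul_le_mul_right ?_ hd
  have e1 : |((T d m r x + u : ℤ) : ℝ)| * d = |(m (x % d) : ℝ) * x - r (x % d) + u * d| := by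
    rw [← abs_of_pos hd, ← abs_mul, abs_of_pos hd, ← hTx]
    push_cast
    ring_nf
  have e2 : |(m (x % d) : ℝ) * x - r (x % d) + u * d| ≤
      (m (x % d) : ℝ) * |(x : ℝ)| + |(r (x % d) : ℝ)| + |(u : ℝ)| * d := by
    have h1 := abs_add_le ((m (x % d) : ℝ) * x - r (x % d)) (u * d)
    have h2 := abs_sub ((m (x % d) : ℝ) * x) (r (x % d) : ℝ)
    rw [abs_mul, abs_of_pos (by linarith : (0 : ℝ) < m (x % d))] at h2
    rw [abs_mul (u : ℝ), abs_of_pos hd] at h1
    linarith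
  have e3 : fac d m η (x % d).toNat * |(x : ℝ)| * d = (m (x % d) : ℝ) * (1 + η) * |(x : ℝ)| := by
    unfold fac
    rw [hjn]
    field_simp
  rw [e1, e3]
  refine e2.trans ?_
  have h5 : |(u : ℝ)| * d ≤ d * B := by nlinarith
  have h6 : M * η ≤ (m (x % d) : ℝ) * η * |(x : ℝ)| := by
    have h7 : M * η ≤ |(x : ℝ)| * η := mul_le_mul_of_nonneg_right hx hη.le
    have h8 : 0 ≤ |(x : ℝ)| * η := mul_nonneg (abs_nonneg _) hη.le
    nlinarith
  nlinarith

theorem Q_nonneg {d : ℕ} {m r : ℤ → ℤ} {w : ℤ → ℝ} (hw : ∀ u, 0 ≤ w u) {B : ℕ} {M : ℝ}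
    {F : ℤ → ℝ} (hF : ∀ x, 0 ≤ F x) (x : ℤ) : 0 ≤ Q d m r w B M F x := by
  unfold Q
  split_ifs
  · exact le_rfl
  · exact sum_nonneg fun u _ => mul_nonneg (hw u) (hF _)

theorem V_nonneg {M θ : ℝ} (x : ℤ) : 0 ≤ V M θ x := by
  unfold V
  split_ifs
  · exact le_rfl
  · exact Real.rpow_nonneg (abs_nonneg _) _

theorem iter_nonneg {d : ℕ} {m r : ℤ → ℤ} {w : ℤ → ℝ} (hw : ∀ u, 0 ≤ w u) {B : ℕ} {M θ : ℝ}
    (k : ℕ) : ∀ x, 0 ≤ (Q d m r w B M)^[k] (V M θ) x := by
  induction k with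
  | zero => exact fun x => V_nonneg x
  | succ k ih =>
    intro x
    rw [Function.iterate_succ_apply']
    exact Q_nonneg hw ih x

theorem g_nonneg {ε R ρ : ℝ} (hε0 : 0 < ε) (hε1 : ε < 1) (hR : 0 ≤ R) (hρ : 0 ≤ ρ) (k : ℕ) :
    0 ≤ g ε R ρ k := by
  induction k with
  | zero => exact zero_le_one
  | succ k ih =>
    show 0 ≤ R * (ε * ρ ^ k + (1 - ε) * g ε R ρ k)
    have : 0 ≤ 1 - ε := by linarith
    positivity

/-- the part of the weights which is split off -/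
noncomputable def vv (d K : ℕ) (ε : ℝ) (u : ℤ) : ℝ :=
  if 0 ≤ u ∧ u < (d : ℤ) ^ K then ε / (d : ℝ) ^ K else 0

theorem sum_vv (d K B : ℕ) (hKB : d ^ K ≤ B) (ε : ℝ) (F : ℤ → ℝ) :
    ∑ u ∈ Icc (-(B : ℤ)) B, vv d K ε u * F u =
      ε / (d : ℝ) ^ K * ∑ u ∈ range (d ^ K), F (u : ℤ) := by
  have h1 : ∑ u ∈ Icc (-(B : ℤ)) B, vv d K ε u * F u =
      ∑ u ∈ (Icc (-(B : ℤ)) B).filter (fun u => 0 ≤ u ∧ u < (d : ℤ) ^ K),
        ε / (d : ℝ) ^ K * F u := by
    rw [sum_filter]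
    refine sum_congr rfl fun u _ => ?_
    unfold vv
    split_ifs <;> simp
  have h2 : (Icc (-(B : ℤ)) B).filter (fun u => 0 ≤ u ∧ u < (d : ℤ) ^ K) =
      (range (d ^ K)).map ⟨fun n : ℕ => (n : ℤ), Nat.cast_injective⟩ := by
    ext u
    simp only [mem_filter, mem_Icc, mem_map, mem_range, Function.Embedding.coeFn_mk]
    constructor
    · rintro ⟨-, h3, h4⟩
      refine ⟨u.toNat, ?_, Int.toNat_of_nonneg h3⟩
      have : ((u.toNat : ℕ) : ℤ) < ((d ^ K : ℕ) : ℤ) := by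
        rw [Int.toNat_of_nonneg h3]
        exact_mod_cast h4
      exact_mod_cast this
    · rintro ⟨n, hn, rfl⟩
      have h5 : (n : ℤ) < ((d ^ K : ℕ) : ℤ) := by exact_mod_cast hn
      have h6 : ((d ^ K : ℕ) : ℤ) ≤ B := by exact_mod_cast hKB
      refine ⟨⟨by omega, by omega⟩, by omega, ?_⟩
      push_cast at h5
      exact h5
  rw [h1, h2, sum_map, mul_sum]
  rfl

theorem t_WC : S_AVG → S_WC := by
  intro hAVG d m r hrel θ η hθ0 hθ1 hη B
  obtain ⟨M1, hM1, h1⟩ := hAVG d m r hrel θ η hθ0 hθ1 hη B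
  have hd : 0 < d := by
    have := hrel.two_le
    omega
  have hdR : (0 : ℝ) < d := by exact_mod_cast hd
  refine ⟨max M1 (((∑ j ∈ range d, |(r (j : ℤ) : ℝ)|) + d * B) / η),
    hM1.trans (le_max_left _ _), ?_⟩
  intro M hM w hw0 hw1 ε R K hε0 hε1 hKB hR hwε
  have hMM1 : M1 ≤ M := (le_max_left _ _).trans hM
  have hMη : (∑ j ∈ range d, |(r (j : ℤ) : ℝ)|) + d * B ≤ M * η := by
    have := (le_max_right _ _).trans hM
    rwa [div_le_iff₀ hη] at this
  obtain ⟨ρ, hρ⟩ : ∃ ρ : ℝ, ρ = (∑ j ∈ range d, fac d m η j ^ θ) / d := ⟨_, rfl⟩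
  rw [← hρ]
  have hρ0 : 0 ≤ ρ := by
    rw [hρ]
    exact div_nonneg (sum_nonneg fun j hj => Real.rpow_nonneg (fac_pos hrel hη hj).le _) hdR.le
  have hR0 : 0 ≤ R := (Real.rpow_nonneg (fac_pos hrel hη (mem_range.2 hd)).le _).trans
    (hR 0 (mem_range.2 hd))
  have hε1' : 0 ≤ 1 - ε := by linarith
  have hdK : (0 : ℝ) < (d : ℝ) ^ K := by positivity
  have hvw : ∀ u : ℤ, 0 ≤ w u - vv d K ε u := by
    intro u
    unfold vv
    split_ifs with h
    · linarith [hwε u h.1 h.2]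
    · linarith [hw0 u]
  have hvsum : ∑ u ∈ Icc (-(B : ℤ)) B, (w u - vv d K ε u) ≤ 1 - ε := by
    rw [sum_sub_distrib]
    have h2 := sum_vv d K B hKB ε (fun _ => 1)
    simp only [mul_one, sum_const, card_range, nsmul_eq_mul, Nat.cast_pow] at h2
    rw [h2, div_mul_cancel₀ _ hdK.ne']
    linarith
  intro k
  induction k with
  | zero =>
    intro _ x
    show V M θ x ≤ 1 * |(x : ℝ)| ^ θ
    unfold V
    split_ifs
    · rw [one_mul]
      exact Real.rpow_nonneg (abs_nonneg _) _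
    · rw [one_mul]
  | succ k ih =>
    intro hk x
    have ih' := ih (by omega)
    have hgk := g_nonneg hε0 hε1 hR0 hρ0 k
    rw [Function.iterate_succ_apply']
    by_cases hx : |(x : ℝ)| < M
    · have : Q d m r w B M ((Q d m r w B M)^[k] (V M θ)) x = 0 := by
        unfold Q
        rw [if_pos hx]
      rw [this]
      exact mul_nonneg (g_nonneg hε0 hε1 hR0 hρ0 _) (Real.rpow_nonneg (abs_nonneg _) _)
    · have hx' : M ≤ |(x : ℝ)| := not_lt.1 hx
      obtain ⟨F, hF⟩ : ∃ F : ℤ → ℝ, F = (Q d m r w B M)^[k] (V M θ) := ⟨_, rfl⟩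
      have hF0 : ∀ y, 0 ≤ F y := by
        rw [hF]
        exact iter_nonneg hw0 k
      rw [← hF] at ih' ⊢
      obtain ⟨z, hz⟩ : ∃ z : ℝ, z = fac d m η (x % d).toNat * |(x : ℝ)| := ⟨_, rfl⟩
      have hjr : (x % d).toNat ∈ range d := by
        rw [mem_range]
        have h3 : 0 ≤ x % d := Int.emod_nonneg _ (by exact_mod_cast hd.ne')
        have h4 : x % d < d := Int.emod_lt_of_pos _ (by exact_mod_cast hd)
        omega
      have hfp := fac_pos hrel hη hjr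
      have hz0 : 0 ≤ z := by
        rw [hz]
        positivity
      have hTz : ∀ u : ℤ, |u| ≤ (B : ℤ) → |((T d m r x + u : ℤ) : ℝ)| ≤ z := by
        intro u hu
        rw [hz]
        exact T_bound hrel hη hMη x hx' u hu
      have hzR : z ^ θ ≤ R * |(x : ℝ)| ^ θ := by
        rw [hz, Real.mul_rpow hfp.le (abs_nonneg _)]
        exact mul_le_mul_of_nonneg_right (hR _ hjr) (Real.rpow_nonneg (abs_nonneg _) _)
      have hzθ : 0 ≤ z ^ θ := Real.rpow_nonneg hz0 _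
      -- the uniform part
      have hA : ∑ u ∈ Icc (-(B : ℤ)) B, vv d K ε u * F (T d m r x + u) ≤ ε * ρ ^ k * z ^ θ := by
        rw [sum_vv d K B hKB ε (fun u => F (T d m r x + u))]
        have h2 := h1 M hMM1 w hw0 hw1 k K (by omega) 1 (T d m r x) isCoprime_one_left z hz0 (by
          intro u hu
          rw [one_mul]
          apply hTz
          rw [abs_of_nonneg (by positivity)]
          exact_mod_cast (hu.le.trans hKB))
        simp only [one_mul] at h2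
        rw [← hF, ← hρ] at h2
        calc ε / (d : ℝ) ^ K * ∑ u ∈ range (d ^ K), F (T d m r x + (u : ℤ))
            ≤ ε / (d : ℝ) ^ K * ((d : ℝ) ^ K * ρ ^ k * z ^ θ) :=
              mul_le_mul_of_nonneg_left h2 (by positivity)
          _ = ε * ρ ^ k * z ^ θ := by
              field_simp
      -- the rest
      have hB : ∑ u ∈ Icc (-(B : ℤ)) B, (w u - vv d K ε u) * F (T d m r x + u) ≤
          (1 - ε) * (g ε R ρ k * z ^ θ) := by
        calc ∑ u ∈ Icc (-(B : ℤ)) B, (w u - vv d K ε u) * F (T d m r x + u)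
            ≤ ∑ u ∈ Icc (-(B : ℤ)) B, (w u - vv d K ε u) * (g ε R ρ k * z ^ θ) := by
              refine sum_le_sum fun u hu => mul_le_mul_of_nonneg_left ?_ (hvw u)
              refine (ih' _).trans (mul_le_mul_of_nonneg_left ?_ hgk)
              refine Real.rpow_le_rpow (abs_nonneg _) (hTz u ?_) hθ0.le
              rw [mem_Icc] at hu
              exact abs_le.2 hu
          _ = (∑ u ∈ Icc (-(B : ℤ)) B, (w u - vv d K ε u)) * (g ε R ρ k * z ^ θ) := by
              rw [sum_mul]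
          _ ≤ (1 - ε) * (g ε R ρ k * z ^ θ) :=
              mul_le_mul_of_nonneg_right hvsum (mul_nonneg hgk hzθ)
      have hQ : Q d m r w B M F x = ∑ u ∈ Icc (-(B : ℤ)) B, vv d K ε u * F (T d m r x + u) +
          ∑ u ∈ Icc (-(B : ℤ)) B, (w u - vv d K ε u) * F (T d m r x + u) := by
        unfold Q
        rw [if_neg hx, ← sum_add_distrib]
        exact sum_congr rfl fun u _ => by ring
      rw [hQ]
      show _ ≤ R * (ε * ρ ^ k + (1 - ε) * g ε R ρ k) * |(x : ℝ)| ^ θ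
      have hc : 0 ≤ ε * ρ ^ k + (1 - ε) * g ε R ρ k := by positivity
      calc _ ≤ ε * ρ ^ k * z ^ θ + (1 - ε) * (g ε R ρ k * z ^ θ) := add_le_add hA hB
        _ = (ε * ρ ^ k + (1 - ε) * g ε R ρ k) * z ^ θ := by ring
        _ ≤ (ε * ρ ^ k + (1 - ε) * g ε R ρ k) * (R * |(x : ℝ)| ^ θ) :=
            mul_le_mul_of_nonneg_left hzR hc
        _ = _ := by ring

end Pool.Agent.U97.RP
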